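import Pool.Agent.R475.Eul.Final
import Pool.Agent.R475.Eul.Bridge

/-!
# MP_492a05_co: Eulerian posets agreeing with a face lattice outside one rank

The negated form of Q1 holds, for every polytope.
-/

set_option autoImplicit false

namespace Pool.Agent.Results.MP_492a05_co.EulerianRigid

open Pool.Agent.R475.Eul

/-- Let `P` be the polytope `conv S`, of dimension `d`, and `1 ≤ r ≤ d - 2`. Let `Q` be an Eulerian
poset whose elements of dimension `≠ r` are, through the identification `φ`, the faces of `P` of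
dimension `≠ r`, with the same dimensions and the same order relations. Then `φ` extends to an
isomorphism from `Q` to the face lattice of `P`. -/
theorem result {n : ℕ} (S : Finset (Fin n → ℝ)) (r : ℕ) (hr : 1 ≤ r)
    (hrd : r + 2 ≤ Module.finrank ℝ (vectorSpan ℝ (convexHull ℝ (S : Set (Fin n → ℝ)))))
    {Q : Type*} [Finite Q] [PartialOrder Q] [BoundedOrder Q] (ρ : Q → ℕ) (hρ : IsEulerian ρ)
    (φ : {q : Q // ρ q ≠ r + 1} ≃o
      {F : FaceLattice (convexHull ℝ (S : Set (Fin n → ℝ))) // frank F.1 ≠ r + 1})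
    (hφ : ∀ q, frank (φ q).1.1 = ρ q.1) :
    ∃ ψ : Q ≃o FaceLattice (convexHull ℝ (S : Set (Fin n → ℝ))),
      ∀ q : {q : Q // ρ q ≠ r + 1}, ψ q.1 = (φ q).1 := by
  have := finite_faces S
  have hne : convexHull ℝ (S : Set (Fin n → ℝ)) ≠ ∅ := by
    intro h0
    rw [h0, vectorSpan_empty, finrank_bot] at hrd
    omega
  let bot : FaceLattice (convexHull ℝ (S : Set (Fin n → ℝ))) :=
    ⟨∅, 0, 1, fun x _ => by simp, by ext x; simp⟩
  let top : FaceLattice (convexHull ℝ (S : Set (Fin n → ℝ))) :=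
    ⟨convexHull ℝ (S : Set (Fin n → ℝ)), 0, 0, fun x _ => by simp, by ext x; simp⟩
  refine exists_iso' (pl_polytope S) hρ φ hφ (bot := bot) (top := top) ?_ ?_ ?_ (by omega) ?_
  · intro F
    show (∅ : Set (Fin n → ℝ)) ⊆ F.1
    exact Set.empty_subset _
  · intro F
    show F.1 ⊆ convexHull ℝ (S : Set (Fin n → ℝ))
    obtain ⟨l, c, _, hF⟩ := F.2
    rw [hF]
    exact fun x hx => hx.1
  · show frank (∅ : Set (Fin n → ℝ)) = 0
    simp [frank]
  · show r + 1 + 2 ≤ frank (convexHull ℝ (S : Set (Fin n → ℝ)))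
    unfold frank
    rw [if_neg hne]
    omega

end Pool.Agent.Results.MP_492a05_co.EulerianRigid
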